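import Mathlib

open Filter Topology

namespace Pool.Agent.Results.MP_9f54b8_an.Counter

def InSigma (f : ℂ → ℂ) : Prop :=
  DifferentiableOn ℂ f {z | 1 < ‖z‖} ∧ Set.InjOn f {z | 1 < ‖z‖} ∧
    ∃ b : ℕ → ℂ, ∀ z : ℂ, 1 < ‖z‖ → HasSum (fun n => b n * (z⁻¹) ^ n) (f z - z)

lemma sig (e : ℂ) (he : e = 1 ∨ e = -1) : InSigma (fun z => z - e * (3 / 2) + e / 2 * (z⁻¹) ^ 2) := by
  have hn : ‖e‖ = 1 := by rcases he with rfl | rfl <;> simp
  refine ⟨fun z hz => ?_, fun z hz w hw h => ?_, fun n => if n = 0 then -(e * (3 / 2)) else if n = 2 then e / 2 else 0,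
    fun z _ => ?_⟩
  · have : z ≠ 0 := by rintro rfl; norm_num at hz
    exact (by fun_prop (disch := assumption) : DifferentiableAt ℂ _ z).differentiableWithinAt
  · by_contra hne
    have hz1 : 1 < ‖z‖ := hz
    have hw1 : 1 < ‖w‖ := hw
    have z0 : z ≠ 0 := by rintro rfl; norm_num at hz1
    have w0 : w ≠ 0 := by rintro rfl; norm_num at hw1
    have h1 : (z - w) * (2 * z ^ 2 * w ^ 2 - e * (z + w)) = 0 := by
      simp only at h
      field_simp at h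
      linear_combination h
    have h2 : 2 * z ^ 2 * w ^ 2 = e * (z + w) := sub_eq_zero.1 ((mul_eq_zero.1 h1).resolve_left (sub_ne_zero.2 hne))
    have h3 := congrArg norm h2
    simp only [norm_mul, norm_pow, hn, one_mul, Complex.norm_ofNat] at h3
    have h4 := norm_add_le z w
    have a1 : ‖z‖ < ‖z‖ ^ 2 * ‖w‖ ^ 2 := by
      have : 1 < ‖w‖ ^ 2 := by nlinarith
      nlinarith
    have a2 : ‖w‖ < ‖z‖ ^ 2 * ‖w‖ ^ 2 := by
      have : 1 < ‖z‖ ^ 2 := by nlinarith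
      nlinarith
    linarith
  · have := hasSum_sum_of_ne_finset_zero (s := {0, 2})
      (f := fun n : ℕ => (if n = 0 then -(e * (3 / 2)) else if n = 2 then e / 2 else 0) * (z⁻¹) ^ n)
      (L := SummationFilter.unconditional ℕ) (by
        intro n hn
        simp only [Finset.mem_insert, Finset.mem_singleton, not_or] at hn
        simp [hn.1, hn.2])
    convert this using 1
    simp
    ring

lemma nz (e : ℂ) (he : e = 1 ∨ e = -1) (z : ℂ) (hz : 1 < ‖z‖) : z - e * (3 / 2) + e / 2 * (z⁻¹) ^ 2 ≠ 0 := by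
  intro h
  have z0 : z ≠ 0 := by rintro rfl; norm_num at hz
  have h1 : (z - e) ^ 2 * (2 * z + e) = 0 := by
    field_simp at h
    rcases he with rfl | rfl <;> linear_combination h
  have hn : ‖e‖ = 1 := by rcases he with rfl | rfl <;> simp
  rcases mul_eq_zero.1 h1 with h2 | h2
  · have : z = e := sub_eq_zero.1 (pow_eq_zero_iff two_ne_zero |>.1 h2)
    rw [this, hn] at hz; exact lt_irrefl _ hz
  · have := congrArg norm (eq_neg_of_add_eq_zero_left h2)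
    simp [hn] at this
    linarith

noncomputable def G (w : ℂ) : ℂ :=
  (1 - 3 / 2 * w + 1 / 2 * w ^ 3) ^ (1 / 2 : ℂ) * (1 + 3 / 2 * w - 1 / 2 * w ^ 3) ^ (1 / 2 : ℂ)

lemma G_an : AnalyticAt ℂ G 0 := by
  unfold G
  refine AnalyticAt.mul (AnalyticAt.cpow (by fun_prop) analyticAt_const (by simp))
    (AnalyticAt.cpow (by fun_prop) analyticAt_const (by simp))

lemma G2 : iteratedDeriv 2 G 0 = -(9 / 4) := by
  have hsq : ∀ w, G w * G w = 1 - (3 / 2 * w - 1 / 2 * w ^ 3) ^ 2 := fun w => by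
    have e : ∀ x : ℂ, x ^ (1 / 2 : ℂ) * x ^ (1 / 2 : ℂ) = x := fun x => by
      have h := Complex.cpow_nat_inv_pow x (n := 2) two_ne_zero
      rw [← sq]; simpa using h
    unfold G
    rw [mul_mul_mul_comm, e, e]; ring
  have g0 : G 0 = 1 := by simp [G]
  have h1 : ∀ᶠ w in 𝓝 (0 : ℂ), deriv G w * G w + G w * deriv G w =
      -(2 * (3 / 2 * w - 1 / 2 * w ^ 3) * (3 / 2 - 3 / 2 * w ^ 2)) := by
    filter_upwards [G_an.eventually_analyticAt] with w hw
    have a := hw.differentiableAt.hasDerivAt.mul hw.differentiableAt.hasDerivAt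
    have b : HasDerivAt (fun w : ℂ => 1 - (3 / 2 * w - 1 / 2 * w ^ 3) ^ 2)
        (-(2 * (3 / 2 * w - 1 / 2 * w ^ 3) * (3 / 2 - 3 / 2 * w ^ 2))) w := by
      have := ((((hasDerivAt_id w).const_mul (3 / 2)).sub ((hasDerivAt_pow 3 w).const_mul (1 / 2))).pow 2).const_sub 1
      refine this.congr_deriv ?_
      simp only [Pi.sub_apply, id]; push_cast; ring
    have c : (G * G) = fun w : ℂ => 1 - (3 / 2 * w - 1 / 2 * w ^ 3) ^ 2 := funext hsq
    rw [c] at a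
    exact a.unique b
  have d0 : deriv G 0 = 0 := by
    have := h1.self_of_nhds
    rw [g0] at this
    linear_combination this / 2
  have a1 := G_an.differentiableAt.hasDerivAt
  have a2 := G_an.deriv.differentiableAt.hasDerivAt
  have a3 := ((a2.mul a1).add (a1.mul a2)).congr_of_eventuallyEq (EventuallyEq.symm h1)
  have b : HasDerivAt (fun w : ℂ => -(2 * (3 / 2 * w - 1 / 2 * w ^ 3) * (3 / 2 - 3 / 2 * w ^ 2))) (-(9 / 2)) 0 := by
    have := (((((hasDerivAt_id (0 : ℂ)).const_mul (3 / 2)).sub ((hasDerivAt_pow 3 (0 : ℂ)).const_mul (1 / 2))).const_mul 2).mul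
      (((hasDerivAt_pow 2 (0 : ℂ)).const_mul (3 / 2)).const_sub (3 / 2))).neg
    refine this.congr_deriv ?_
    simp; ring
  have := a3.unique b
  rw [g0, d0] at this
  rw [iteratedDeriv_succ, iteratedDeriv_one]
  linear_combination this / 2

theorem result : ∃ (α : ℝ) (f g : ℂ → ℂ), 0 ≤ α ∧ α ≤ 1 ∧ InSigma f ∧ InSigma g ∧
    (∀ z : ℂ, 1 < ‖z‖ → f z ≠ 0 ∧ g z ≠ 0) ∧
    ∃ (A : ℕ → ℂ) (R : ℝ),
      (∀ z : ℂ, R < ‖z‖ → HasSum (fun n => A n * (z⁻¹) ^ n)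
        (z * (f z / z) ^ ((1 - α : ℝ) : ℂ) * (g z / z) ^ (α : ℂ) - z)) ∧
      1 < ‖A 1‖ ∧ 1 < ∑' n : ℕ, ENNReal.ofReal (n * ‖A n‖ ^ 2) := by
  have hp := G_an.hasFPowerSeriesAt
  rw [hasFPowerSeriesAt_iff] at hp
  obtain ⟨r, hr, hs⟩ := Metric.eventually_nhds_iff.1 hp
  have hA : ‖iteratedDeriv (1 + 1) G 0 / ((1 + 1).factorial : ℂ)‖ = 9 / 8 := by
    rw [G2]; norm_num [Nat.factorial]
  refine ⟨1 / 2, _, _, by norm_num, by norm_num, sig 1 (.inl rfl), sig (-1) (.inr rfl),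
    fun z hz => ⟨nz 1 (.inl rfl) z hz, nz (-1) (.inr rfl) z hz⟩,
    fun n => iteratedDeriv (n + 1) G 0 / ((n + 1).factorial : ℂ), r⁻¹, fun z hz => ?_, by rw [hA]; norm_num, ?_⟩
  · have zp : 0 < ‖z‖ := (inv_pos.2 hr).trans hz
    have z0 : z ≠ 0 := norm_pos_iff.1 zp
    have h1 := hs (y := z⁻¹) (by rw [dist_zero_right, norm_inv]; exact inv_lt_of_inv_lt₀ hr hz)
    simp only [FormalMultilinearSeries.coeff_ofScalars, zero_add, smul_eq_mul] at h1
    have h2 := ((hasSum_nat_add_iff' 1).2 h1).mul_left z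
    have g0 : G 0 = 1 := by simp [G]
    have e0 : (fun n : ℕ => iteratedDeriv (n + 1) G 0 / ((n + 1).factorial : ℂ) * (z⁻¹) ^ n) =
        fun i => z * (z⁻¹ ^ (i + 1) * (iteratedDeriv (i + 1) G 0 / ((i + 1).factorial : ℂ))) := by
      ext n; rw [pow_succ (z⁻¹) n]; field_simp
    have e1 : (z - 1 * (3 / 2) + 1 / 2 * (z⁻¹) ^ 2) / z = 1 - 3 / 2 * z⁻¹ + 1 / 2 * (z⁻¹) ^ 3 := by field_simp
    have e2 : (z - -1 * (3 / 2) + -1 / 2 * (z⁻¹) ^ 2) / z = 1 + 3 / 2 * z⁻¹ - 1 / 2 * (z⁻¹) ^ 3 := by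
      field_simp; ring
    have c1 : (((1 - 1 / 2 : ℝ)) : ℂ) = 1 / 2 := by push_cast; ring
    have c2 : (((1 / 2 : ℝ)) : ℂ) = 1 / 2 := by push_cast; ring
    rw [e0, e1, e2, c1, c2, mul_assoc]
    have e3 : z * (G z⁻¹ - ∑ i ∈ Finset.range 1, z⁻¹ ^ i * (iteratedDeriv i G 0 / (i.factorial : ℂ))) = z * G z⁻¹ - z := by
      simp [g0]; ring
    rw [e3] at h2
    exact h2
  · refine lt_of_lt_of_le ?_ (ENNReal.le_tsum 1)
    rw [hA, ENNReal.one_lt_ofReal]; norm_num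

end Pool.Agent.Results.MP_9f54b8_an.Counter
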